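import Mathlib

namespace Pool.Agent.Results.MP_64a46a_co.Rbo

open Finset SimpleGraph

/-- the hexagonal lattice in brick-wall coordinates -/
def lat : SimpleGraph (ℤ × ℤ) where
  Adj p q := (p.2 = q.2 ∧ (q.1 = p.1 + 1 ∨ p.1 = q.1 + 1)) ∨
    (p.1 = q.1 ∧ ((q.2 = p.2 + 1 ∧ (p.1 + p.2) % 2 = 0) ∨ (p.2 = q.2 + 1 ∧ (q.1 + q.2) % 2 = 0)))
  symm := ⟨by intro p q h; omega⟩
  loopless := ⟨by intro p h; omega⟩

instance : DecidableRel lat.Adj := fun p q => by unfold lat; infer_instance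

/-- the six edges of the hexagon (face of the lattice) with index `c = (a, b)`, whose lower left
corner is `(2a + b, b)` -/
def hex (c : ℤ × ℤ) : Finset (Sym2 (ℤ × ℤ)) :=
  let x := 2 * c.1 + c.2
  let y := c.2
  {s((x, y), (x + 1, y)), s((x + 1, y), (x + 2, y)), s((x + 2, y), (x + 2, y + 1)),
    s((x + 2, y + 1), (x + 1, y + 1)), s((x + 1, y + 1), (x, y + 1)), s((x, y + 1), (x, y))}

/-- `S` is the set of hexagons inside a cycle `C` of the lattice: the edges lying on exactly one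
hexagon of `S` are the edges of `C` -/
def IsBenzenoid (S : Finset (ℤ × ℤ)) : Prop :=
  ∃ (v : ℤ × ℤ) (C : lat.Walk v v), C.IsCycle ∧
    ∀ e, e ∈ C.edges ↔ (S.filter (fun c => e ∈ hex c)).card = 1

/-- the edges of the benzenoid system; its vertices are the ends of these edges -/
def edges (S : Finset (ℤ × ℤ)) : Finset (Sym2 (ℤ × ℤ)) := S.biUnion hex

open Classical in
/-- the perfect matchings (Kekule structures) -/
noncomputable def kekule (S : Finset (ℤ × ℤ)) : Finset (Finset (Sym2 (ℤ × ℤ))) :=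
  (edges S).powerset.filter (fun M => ∀ v, (∃ e ∈ edges S, v ∈ e) → ∃! e, e ∈ M ∧ v ∈ e)

/-- ring bond order -/
noncomputable def RBO (S : Finset (ℤ × ℤ)) (h : ℤ × ℤ) : ℚ :=
  (∑ M ∈ kekule S, ((M ∩ hex h).card : ℚ)) / (kekule S).card

def S0 : Finset (ℤ × ℤ) := {(3, 1), (2, 1), (3, 2), (1, 2), (4, 1), (1, 3), (2, 0), (0, 3)}

def Vs : Finset (ℤ × ℤ) := {(3, 3), (3, 4), (4, 0), (4, 1), (4, 2), (4, 3), (4, 4), (5, 0), (5, 1),
  (5, 2), (5, 3), (5, 4), (6, 0), (6, 1), (6, 2), (6, 3), (6, 4), (7, 1), (7, 2), (7, 3), (7, 4),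
  (8, 1), (8, 2), (8, 3), (9, 1), (9, 2), (9, 3), (10, 1), (10, 2), (10, 3), (11, 1), (11, 2)}

def y1 (v : ℤ × ℤ) : ℤ := (([((4, 1), 1), ((5, 0), 1), ((6, 1), 1), ((7, 1), -1), ((8, 1), 1),
  ((8, 2), -1), ((8, 3), 1), ((9, 1), -1), ((9, 2), 1), ((9, 3), -1), ((10, 1), 1), ((10, 2), -1),
  ((10, 3), 1), ((11, 1), -1), ((11, 2), 1)] : List ((ℤ × ℤ) × ℤ)).lookup v).getD 0

def y2 (v : ℤ × ℤ) : ℤ := if v = (4, 1) ∨ v = (5, 0) ∨ v = (6, 1) then 1 else 0

def M0 : Finset (Sym2 (ℤ × ℤ)) := {s((3, 3), (4, 3)), s((3, 4), (4, 4)), s((4, 0), (5, 0)),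
  s((4, 1), (5, 1)), s((4, 2), (5, 2)), s((5, 3), (6, 3)), s((5, 4), (6, 4)), s((6, 0), (6, 1)),
  s((6, 2), (7, 2)), s((7, 1), (8, 1)), s((7, 3), (7, 4)), s((8, 2), (9, 2)), s((8, 3), (9, 3)),
  s((9, 1), (10, 1)), s((10, 2), (10, 3)), s((11, 1), (11, 2))}

def cyc : lat.Walk (3, 3) (3, 3) :=
  Walk.cons (show lat.Adj (3, 3) (4, 3) by decide)
    (Walk.cons (show lat.Adj (4, 3) (4, 2) by decide)
    (Walk.cons (show lat.Adj (4, 2) (5, 2) by decide)
    (Walk.cons (show lat.Adj (5, 2) (5, 1) by decide)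
    (Walk.cons (show lat.Adj (5, 1) (4, 1) by decide)
    (Walk.cons (show lat.Adj (4, 1) (4, 0) by decide)
    (Walk.cons (show lat.Adj (4, 0) (5, 0) by decide)
    (Walk.cons (show lat.Adj (5, 0) (6, 0) by decide)
    (Walk.cons (show lat.Adj (6, 0) (6, 1) by decide)
    (Walk.cons (show lat.Adj (6, 1) (7, 1) by decide)
    (Walk.cons (show lat.Adj (7, 1) (8, 1) by decide)
    (Walk.cons (show lat.Adj (8, 1) (9, 1) by decide)
    (Walk.cons (show lat.Adj (9, 1) (10, 1) by decide)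
    (Walk.cons (show lat.Adj (10, 1) (11, 1) by decide)
    (Walk.cons (show lat.Adj (11, 1) (11, 2) by decide)
    (Walk.cons (show lat.Adj (11, 2) (10, 2) by decide)
    (Walk.cons (show lat.Adj (10, 2) (10, 3) by decide)
    (Walk.cons (show lat.Adj (10, 3) (9, 3) by decide)
    (Walk.cons (show lat.Adj (9, 3) (8, 3) by decide)
    (Walk.cons (show lat.Adj (8, 3) (8, 2) by decide)
    (Walk.cons (show lat.Adj (8, 2) (7, 2) by decide)
    (Walk.cons (show lat.Adj (7, 2) (6, 2) by decide)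
    (Walk.cons (show lat.Adj (6, 2) (6, 3) by decide)
    (Walk.cons (show lat.Adj (6, 3) (7, 3) by decide)
    (Walk.cons (show lat.Adj (7, 3) (7, 4) by decide)
    (Walk.cons (show lat.Adj (7, 4) (6, 4) by decide)
    (Walk.cons (show lat.Adj (6, 4) (5, 4) by decide)
    (Walk.cons (show lat.Adj (5, 4) (4, 4) by decide)
    (Walk.cons (show lat.Adj (4, 4) (3, 4) by decide)
    (Walk.cons (show lat.Adj (3, 4) (3, 3) by decide)
    (Walk.nil))))))))))))))))))))))))))))))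

lemma dual (M : Finset (Sym2 (ℤ × ℤ))) (hM : M ∈ kekule S0) (y : ℤ × ℤ → ℤ) :
    ∑ e ∈ M, ∑ v ∈ Vs, (if v ∈ e then y v else 0) = ∑ v ∈ Vs, y v := by
  rw [Finset.sum_comm]
  apply Finset.sum_congr rfl
  intro v hv
  have h1 : ∀ v ∈ Vs, ∃ e ∈ edges S0, v ∈ e := by decide +kernel
  simp only [kekule, mem_filter] at hM
  obtain ⟨e, ⟨he, hve⟩, hu⟩ := hM.2 v (h1 v hv)
  rw [Finset.sum_eq_single e]
  · simp [hve]
  · intro b hb hne
    rw [if_neg]
    intro hvb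
    exact hne (hu b ⟨hb, hvb⟩)
  · intro h; exact absurd he h

lemma three (M : Finset (Sym2 (ℤ × ℤ))) (hM : M ∈ kekule S0) : (M ∩ hex (2, 0)).card = 3 := by
  have hsub : M ⊆ edges S0 := by
    simp only [kekule, mem_filter, mem_powerset] at hM; exact hM.1
  have hc : ((M ∩ hex (2, 0)).card : ℤ) = ∑ e ∈ M, (if e ∈ hex (2, 0) then 1 else 0 : ℤ) := by
    rw [Finset.sum_boole, Finset.filter_mem_eq_inter]
  have k1 : ∀ e ∈ edges S0, ∑ v ∈ Vs, (if v ∈ e then y1 v else 0) ≤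
      (if e ∈ hex (2, 0) then 1 else 0 : ℤ) := by decide +kernel
  have k2 : ∀ e ∈ edges S0, (if e ∈ hex (2, 0) then 1 else 0 : ℤ) ≤
      ∑ v ∈ Vs, (if v ∈ e then y2 v else 0) := by decide +kernel
  have s1 : ∑ v ∈ Vs, y1 v = 3 := by decide +kernel
  have s2 : ∑ v ∈ Vs, y2 v = 3 := by decide +kernel
  have a1 := Finset.sum_le_sum (s := M) (fun e he => k1 e (hsub he))
  have a2 := Finset.sum_le_sum (s := M) (fun e he => k2 e (hsub he))
  rw [dual M hM, s1] at a1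
  rw [dual M hM, s2] at a2
  omega

lemma M0_mem : M0 ∈ kekule S0 := by
  simp only [kekule, mem_filter, mem_powerset]
  refine ⟨by decide +kernel, ?_⟩
  rintro v ⟨e, he, hv⟩
  have h1 : ∀ e ∈ edges S0, ∀ v ∈ e.toFinset, v ∈ Vs := by decide +kernel
  have h2 : ∀ v ∈ Vs, (M0.filter (fun e => v ∈ e)).card = 1 := by decide +kernel
  obtain ⟨f, hf⟩ := Finset.card_eq_one.mp (h2 v (h1 e he v (by simpa using hv)))
  have hf' : ∀ g, (g ∈ M0 ∧ v ∈ g) ↔ g = f := by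
    intro g; rw [← Finset.mem_singleton, ← hf, mem_filter]
  exact ⟨f, (hf' f).2 rfl, fun g hg => (hf' g).1 hg⟩

theorem result : ∃ (S : Finset (ℤ × ℤ)) (h : ℤ × ℤ), IsBenzenoid S ∧ 2 ≤ S.card ∧
    1 ≤ (kekule S).card ∧ h ∈ S ∧ RBO S h = 3 ∧ ∀ M ∈ kekule S, (M ∩ hex h).card = 3 := by
  have hpos : 1 ≤ (kekule S0).card := Finset.card_pos.mpr ⟨M0, M0_mem⟩
  refine ⟨S0, (2, 0), ⟨(3, 3), cyc, ?_, ?_⟩, by decide, hpos, by decide, ?_, three⟩
  · rw [Walk.isCycle_def, Walk.isTrail_def]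
    refine ⟨by decide +kernel, by simp [cyc], by decide +kernel⟩
  · intro e
    have h1 : ∀ e ∈ cyc.edges, (S0.filter (fun c => e ∈ hex c)).card = 1 := by decide +kernel
    have h2 : ∀ e ∈ edges S0, (S0.filter (fun c => e ∈ hex c)).card = 1 → e ∈ cyc.edges := by
      decide +kernel
    refine ⟨h1 e, fun h => h2 e ?_ h⟩
    obtain ⟨c, hc⟩ := Finset.card_pos.mp (by omega : 0 < (S0.filter (fun c => e ∈ hex c)).card)
    rw [mem_filter] at hc
    exact Finset.mem_biUnion.mpr ⟨c, hc.1, hc.2⟩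
  · unfold RBO
    rw [Finset.sum_congr rfl (fun M hM => by rw [three M hM])]
    have : ((kekule S0).card : ℚ) ≠ 0 := by positivity
    simp
    field_simp

end Pool.Agent.Results.MP_64a46a_co.Rbo
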